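import Pool.Agent.Lib_helper72.KC.W

/-!
# Substitution of monomials
-/

set_option autoImplicit false
set_option linter.unusedSectionVars false

namespace Pool.Agent.KC72

open TN

/-- the power -/
def Mo.pow (a : Mo) (n : ℤ) : Mo := (a.1 && (n % 2 == 1), a.2.map (fun x => n * x))

/-- the substitution of the monomials `T` in the exponents -/
def substL : List Mo → List ℤ → Mo
  | t :: T, e :: es => (t.pow e).mul (substL T es)
  | _, _ => (false, [])

/-- the substitution -/
def subst (T : List Mo) (q : Mo) : Mo := (xor q.1 (substL T q.2).1, (substL T q.2).2)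

section

variable {F : Type*} [Field F]

lemma evl_map_mul (g : List F) (n : ℤ) (a : List ℤ) :
    evl g (a.map (fun x => n * x)) = evl g a ^ n := by
  induction g generalizing a with
  | nil => simp
  | cons e g ih =>
    cases a with
    | nil => simp
    | cons x a => rw [List.map_cons, evl_cons, evl_cons, ih, mul_zpow, ← zpow_mul, mul_comm n x]

lemma ev_pow (g : List F) (a : Mo) (n : ℤ) : ev g (a.pow n) = ev g a ^ n := by
  unfold ev Mo.pow
  rw [evl_map_mul, mul_zpow]
  congr 1
  rcases a with ⟨_ | _, a⟩
  · simp
  · simp only [Bool.true_and]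
    rcases Int.even_or_odd n with h | h
    · have h1 : n % 2 = 0 := Int.even_iff.mp h
      rw [h1]
      simp [h.neg_one_zpow]
    · have h1 : n % 2 = 1 := Int.odd_iff.mp h
      rw [h1]
      simp [h.neg_one_zpow]

lemma ev_substL {g : List F} (hg : ∀ x ∈ g, x ≠ 0) (T : List Mo) (es : List ℤ) :
    ev g (substL T es) = evl (T.map (ev g)) es := by
  induction T generalizing es with
  | nil => simp [substL, ev]
  | cons t T ih =>
    cases es with
    | nil => simp [substL, ev]
    | cons e es =>
      unfold substL
      rw [ev_mul hg, ev_pow, ih, List.map_cons, evl_cons]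

/-- **the value after substitution** -/
lemma ev_subst {g : List F} (hg : ∀ x ∈ g, x ≠ 0) (T : List Mo) (q : Mo) :
    ev g (subst T q) = ev (T.map (ev g)) q := by
  have h := ev_substL hg T q.2
  unfold subst
  unfold ev at h ⊢
  rw [← h]
  rcases q with ⟨_ | _, q⟩
  · simp
  · cases (substL T q).1 <;> simp

lemma evl_ofFn {n : ℕ} (g : Fin n → F) (l : List ℤ) :
    evl (List.ofFn g) l = ∏ j : Fin n, g j ^ (l.getD j.val 0) := by
  induction n generalizing l with
  | zero => simp
  | succ n ih =>
    rw [List.ofFn_succ, Fin.prod_univ_succ]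
    cases l with
    | nil => simp
    | cons x l =>
      rw [evl_cons, ih]
      simp

end

end Pool.Agent.KC72
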