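import Pool.Agent.Lib_helper72.K7.C

/-!
# A point of order eight: the space of the `q f'/f`
-/

set_option autoImplicit false
set_option linter.unusedSectionVars false
set_option linter.unusedSimpArgs false

namespace Pool.Agent.K8

open Polynomial WeierstrassCurve.Affine WithZero TN
open Pool.Agent.K7 (LC LC_x LC_y LC_one v_c')

/-- the orders of the basis -/
def ordm : Fin 9 → ℤ := ![0, 2, 3, 4, 5, 6, 7, 8, 9]

lemma ordm_lt : ∀ M m : Fin 9, m < M → ordm m < ordm M := by decide

lemma lt_ordm : ∀ M m : Fin 9, ordm M < ordm m → M < m := by decide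

section

variable {k : Type*} [Field k] {W : WeierstrassCurve.Affine k}

/-- the basis `1, x, y, x², xy, x³, x²y, x⁴, x³y` -/
noncomputable def bs : Fin 9 → K W :=
  ![1, xK, yK, xK ^ 2, xK * yK, xK ^ 3, xK ^ 2 * yK, xK ^ 4, xK ^ 3 * yK]

lemma LC_bs (m : Fin 9) : LC (bs m : K W) (ordm m) 1 := by
  have hx := LC_x (W := W)
  have hy := LC_y (W := W)
  have p : ∀ n : ℕ, LC ((xK : K W) ^ n) (n * 2) 1 := by
    intro n
    have := hx.pow n
    rwa [one_pow] at this
  fin_cases m
  · exact LC_one
  · exact hx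
  · exact hy
  · exact p 2
  · have := hx.mul hy; rwa [mul_one] at this
  · exact p 3
  · have := (p 2).mul hy; rwa [mul_one] at this
  · exact p 4
  · have := (p 3).mul hy; rwa [mul_one] at this

/-- the element with the coefficients `r` -/
noncomputable def NV (r : Fin 9 → k) : K W := ∑ m, cK (r m) * bs m

lemma NV_zero : (NV (0 : Fin 9 → k) : K W) = 0 := by
  unfold NV; simp

lemma NV_sub (n m : Fin 9 → k) : (NV (n - m) : K W) = NV n - NV m := by
  unfold NV
  rw [← Finset.sum_sub_distrib]
  exact Finset.sum_congr rfl fun i _ => by rw [Pi.sub_apply, map_sub]; ring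

lemma NV_sum {ι : Type*} (s : Finset ι) (a : ι → k) (n : ι → Fin 9 → k) :
    (NV (∑ i ∈ s, a i • n i) : K W) = ∑ i ∈ s, cK (a i) * NV (n i) := by
  unfold NV
  simp only [Finset.sum_apply, Pi.smul_apply, smul_eq_mul, map_sum, map_mul, Finset.sum_mul,
    Finset.mul_sum]
  rw [Finset.sum_comm]
  exact Finset.sum_congr rfl fun i _ => Finset.sum_congr rfl fun j _ => by ring

/-- the leading term of an element of the space -/
lemma v_NV' (r : Fin 9 → k) : r = 0 ∨ ∃ M : Fin 9, r M ≠ 0 ∧ (∀ m, M < m → r m = 0) ∧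
    v (W := W) (NV r) = exp (ordm M) := by
  classical
  by_cases hr : r = 0
  · exact Or.inl hr
  right
  have hne : (Finset.univ.filter fun m => r m ≠ 0).Nonempty := by
    by_contra h
    rw [Finset.not_nonempty_iff_eq_empty] at h
    apply hr
    funext m
    by_contra hm
    have : m ∈ (Finset.univ.filter fun m => r m ≠ 0) :=
      Finset.mem_filter.mpr ⟨Finset.mem_univ _, hm⟩
    rw [h] at this
    simp at this
  set M := (Finset.univ.filter fun m => r m ≠ 0).max' hne with hM
  have hM0 : r M ≠ 0 := (Finset.mem_filter.mp (Finset.max'_mem _ hne)).2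
  have hM1 : ∀ m, M < m → r m = 0 := by
    intro m hm
    by_contra h
    have := Finset.le_max' (Finset.univ.filter fun m => r m ≠ 0) m
      (Finset.mem_filter.mpr ⟨Finset.mem_univ _, h⟩)
    exact absurd hm (not_lt.mpr this)
  refine ⟨M, hM0, hM1, ?_⟩
  have e1 : v (W := W) (cK (r M) * bs M) = exp (ordm M) := by
    rw [map_mul, v_c' hM0, one_mul]
    exact (LC_bs M).v_eq
  have e2 : v (W := W) (∑ m ∈ Finset.univ.erase M, cK (r m) * bs m) < exp (ordm M) := by
    refine Valuation.map_sum_lt _ exp_ne_zero fun m hm => ?_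
    have hm' : m ≠ M := (Finset.mem_erase.mp hm).1
    rcases lt_or_gt_of_ne hm' with h | h
    · by_cases h0 : r m = 0
      · rw [h0, map_zero, zero_mul, map_zero]
        exact exp_pos
      · rw [map_mul, v_c' h0, one_mul, (LC_bs m).v_eq, exp_lt_exp]
        exact ordm_lt M m h
    · rw [hM1 m h, map_zero, zero_mul, map_zero]
      exact exp_pos
  unfold NV
  rw [← Finset.add_sum_erase _ _ (Finset.mem_univ M), Valuation.map_add_eq_of_lt_left _ (by
    rw [e1]; exact e2), e1]

lemma NV_eq_zero {n : Fin 9 → k} (h : (NV n : K W) = 0) : n = 0 := by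
  rcases v_NV' (W := W) n with h1 | ⟨i, -, -, h1⟩
  · exact h1
  · exact absurd h (ne_of_v h1)

lemma NV_key (r : Fin 9 → k) : (NV r : K W) = 0 ∨ ∃ i : ℤ, v (NV r : K W) = exp i := by
  rcases v_NV' (W := W) r with rfl | ⟨i, -, -, hi⟩
  · exact Or.inl NV_zero
  · exact Or.inr ⟨_, hi⟩

end

end Pool.Agent.K8
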