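import Pool.Agent.Lib_helper72.K8.A

/-!
# A point of order eight: divisors of the units
-/

set_option autoImplicit false
set_option linter.unusedSectionVars false
set_option linter.unusedSimpArgs false
set_option maxRecDepth 4000

namespace Pool.Agent.K8

/-- the orders of the units `x, x - b, x - c, x - e, y, y - cx, y - sx` at `0, P, .., 7P` -/
def oU : Fin 7 → Fin 8 → ℤ :=
  ![![-2, 1, 0, 0, 0, 0, 0, 1], ![-2, 0, 1, 0, 0, 0, 1, 0], ![-2, 0, 0, 1, 0, 1, 0, 0],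
    ![-2, 0, 0, 0, 2, 0, 0, 0], ![-3, 2, 0, 0, 0, 0, 1, 0], ![-3, 1, 1, 0, 0, 1, 0, 0],
    ![-3, 1, 0, 1, 1, 0, 0, 0]]

/-- the order at `iP` of a monomial -/
def Dn (n : Fin 7 → ℤ) (i : Fin 8) : ℤ := ∑ j, n j * oU j i

/-- the exponents of `X i = x(z + iP)` in the basis -/
def ex : Fin 8 → Fin 7 → ℤ :=
  ![![1, 0, 0, 0, 0, 0, 0], ![-2, 0, 0, 0, 1, 0, 0], ![1, -1, 0, 0, -1, 1, 0],
    ![0, 1, -1, 0, 0, -1, 1], ![0, 0, 1, -1, 0, 0, 0], ![0, 0, -1, 1, 0, 1, -1],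
    ![0, -1, 1, 0, 1, -1, 0], ![0, 1, 0, 0, -1, 0, 0]]

/-- the order at the point `-sP` of `∏ X i ^ e i` -/
def OO (e : Fin 8 → ℤ) (s : Fin 8) : ℤ := e (s + 1) + e (s - 1) - 2 * e s

/-- the exponents in the basis -/
def NN (e : Fin 8 → ℤ) (j : Fin 7) : ℤ := ∑ i, e i * ex i j

lemma Dn_NN (e : Fin 8 → ℤ) (m : Fin 8) : Dn (NN e) m = OO e (-m) := by
  have key : ∀ i m : Fin 8, ∑ j, ex i j * oU j m = (if i = -m + 1 then 1 else 0) +
      (if i = -m - 1 then 1 else 0) - 2 * (if i = -m then 1 else 0) := by decide +kernel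
  unfold Dn NN OO
  have h1 : ∑ j, (∑ i, e i * ex i j) * oU j m = ∑ i, e i * ∑ j, ex i j * oU j m := by
    rw [show (∑ j, (∑ i, e i * ex i j) * oU j m) = ∑ j, ∑ i, e i * (ex i j * oU j m) from
      Finset.sum_congr rfl fun j _ => by
        rw [Finset.sum_mul]; exact Finset.sum_congr rfl fun i _ => by ring, Finset.sum_comm]
    exact Finset.sum_congr rfl fun i _ => (Finset.mul_sum _ _ _).symm
  rw [h1]
  simp only [key, mul_sub, mul_add, Finset.sum_sub_distrib, Finset.sum_add_distrib]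
  simp only [mul_ite, mul_one, mul_zero, Finset.sum_ite_eq', Finset.mem_univ, if_true]
  ring

lemma Dn_inj {n n' : Fin 7 → ℤ} (h : ∀ i, Dn n i = Dn n' i) : n = n' := by
  have h1 := h 1
  have h2 := h 2
  have h3 := h 3
  have h4 := h 4
  have h5 := h 5
  have h6 := h 6
  have h7 := h 7
  simp only [Dn, Fin.sum_univ_seven, oU, Matrix.cons_val, Matrix.cons_val_zero,
    Matrix.cons_val_one] at h1 h2 h3 h4 h5 h6 h7
  funext j
  fin_cases j <;> simp only [Fin.zero_eta, Fin.mk_one, Fin.reduceFinMk] <;> omega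

/-- a section of `NN` -/
def se : Fin 7 → Fin 8 → ℤ :=
  ![![0, -1, -1, -1, -1, -1, -1, -1], ![0, -1, -2, -2, -2, -2, -2, -1],
    ![0, -1, -2, -3, -3, -3, -2, -1], ![0, -1, -2, -3, -4, -3, -2, -1],
    ![0, -1, -2, -2, -2, -2, -2, -2], ![0, -1, -2, -3, -3, -3, -3, -2],
    ![0, -1, -2, -3, -4, -4, -3, -2]]

/-- exponents of the `X i` -/
def SE (n : Fin 7 → ℤ) (i : Fin 8) : ℤ := ∑ j, n j * se j i

lemma NN_SE (n : Fin 7 → ℤ) : NN (SE n) = n := by
  have key : ∀ j l : Fin 7, ∑ i, se j i * ex i l = if j = l then 1 else 0 := by decide +kernel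
  funext l
  unfold NN SE
  have h1 : ∑ i, (∑ j, n j * se j i) * ex i l = ∑ j, n j * ∑ i, se j i * ex i l := by
    rw [show (∑ i, (∑ j, n j * se j i) * ex i l) = ∑ i, ∑ j, n j * (se j i * ex i l) from
      Finset.sum_congr rfl fun i _ => by
        rw [Finset.sum_mul]; exact Finset.sum_congr rfl fun j _ => by ring, Finset.sum_comm]
    exact Finset.sum_congr rfl fun j _ => (Finset.mul_sum _ _ _).symm
  rw [h1]
  simp only [key, mul_ite, mul_one, mul_zero, Finset.sum_ite_eq', Finset.mem_univ, if_true]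

lemma OO_shift (e : Fin 8 → ℤ) (h s : Fin 8) : OO (fun i => e (i + h)) s = OO e (s + h) := by
  show e (s + 1 + h) + e (s - 1 + h) - 2 * e (s + h) = e (s + h + 1) + e (s + h - 1) - 2 * e (s + h)
  rw [show s + 1 + h = s + h + 1 by abel, show s - 1 + h = s + h - 1 by abel]

lemma sum_OO (e : Fin 8 → ℤ) : ∑ s, OO e s = 0 := by
  unfold OO
  rw [Finset.sum_sub_distrib, Finset.sum_add_distrib, ← Finset.mul_sum]
  have h1 : ∑ s, e (s + 1) = ∑ s, e s := Equiv.sum_comp (Equiv.addRight (1 : Fin 8)) e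
  have h2 : ∑ s, e (s - 1) = ∑ s, e s := Equiv.sum_comp (Equiv.subRight (1 : Fin 8)) e
  rw [h1, h2]; ring

lemma wt_OO (e : Fin 8 → ℤ) : ∑ s : Fin 8, (s.val : ℤ) * OO e s = 8 * (e 0 - e 7) := by
  rw [Fin.sum_univ_eight]
  unfold OO
  have a0 : (0 : Fin 8) + 1 = 1 ∧ (0 : Fin 8) - 1 = 7 := by decide
  have a1 : (1 : Fin 8) + 1 = 2 ∧ (1 : Fin 8) - 1 = 0 := by decide
  have a2 : (2 : Fin 8) + 1 = 3 ∧ (2 : Fin 8) - 1 = 1 := by decide
  have a3 : (3 : Fin 8) + 1 = 4 ∧ (3 : Fin 8) - 1 = 2 := by decide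
  have a4 : (4 : Fin 8) + 1 = 5 ∧ (4 : Fin 8) - 1 = 3 := by decide
  have a5 : (5 : Fin 8) + 1 = 6 ∧ (5 : Fin 8) - 1 = 4 := by decide
  have a6 : (6 : Fin 8) + 1 = 7 ∧ (6 : Fin 8) - 1 = 5 := by decide
  have a7 : (7 : Fin 8) + 1 = 0 ∧ (7 : Fin 8) - 1 = 6 := by decide
  rw [a0.1, a0.2, a1.1, a1.2, a2.1, a2.2, a3.1, a3.2, a4.1, a4.2, a5.1, a5.2, a6.1, a6.2, a7.1,
    a7.2]
  have v0 : ((0 : Fin 8).val : ℤ) = 0 := rfl
  have v1 : ((1 : Fin 8).val : ℤ) = 1 := rfl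
  have v2 : ((2 : Fin 8).val : ℤ) = 2 := rfl
  have v3 : ((3 : Fin 8).val : ℤ) = 3 := rfl
  have v4 : ((4 : Fin 8).val : ℤ) = 4 := rfl
  have v5 : ((5 : Fin 8).val : ℤ) = 5 := rfl
  have v6 : ((6 : Fin 8).val : ℤ) = 6 := rfl
  have v7 : ((7 : Fin 8).val : ℤ) = 7 := rfl
  rw [v0, v1, v2, v3, v4, v5, v6, v7]
  ring

/-- second differences -/
lemma sum_OO_mul (κ : Fin 8 → ℤ) (e : Fin 8 → ℤ) : ∑ c, κ c * OO e c =
    ∑ i, e i * (κ (i - 1) + κ (i + 1) - 2 * κ i) := by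
  have h2 : ∑ c, κ c * OO e c = ∑ c, κ c * e (c + 1) + ∑ c, κ c * e (c - 1) -
      ∑ c, κ c * (2 * e c) := by
    unfold OO
    rw [← Finset.sum_add_distrib, ← Finset.sum_sub_distrib]
    exact Finset.sum_congr rfl fun c _ => by ring
  have h3 : ∑ c, κ c * e (c + 1) = ∑ i, e i * κ (i - 1) := by
    rw [← Equiv.sum_comp (Equiv.addRight (1 : Fin 8)) (fun i => e i * κ (i - 1))]
    refine Finset.sum_congr rfl fun c _ => ?_
    show _ = e (c + 1) * κ (c + 1 - 1)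
    rw [add_sub_cancel_right, mul_comm]
  have h4 : ∑ c, κ c * e (c - 1) = ∑ i, e i * κ (i + 1) := by
    rw [← Equiv.sum_comp (Equiv.subRight (1 : Fin 8)) (fun i => e i * κ (i + 1))]
    refine Finset.sum_congr rfl fun c _ => ?_
    show _ = e (c - 1) * κ (c - 1 + 1)
    rw [sub_add_cancel, mul_comm]
  rw [h2, h3, h4, ← Finset.sum_add_distrib, ← Finset.sum_sub_distrib]
  exact Finset.sum_congr rfl fun i _ => by ring

lemma ex_pos {D : Fin 8 → ℤ} (hs : ∑ s, D s = 0) (h : ∃ s, D s ≠ 0) : ∃ s, 1 ≤ D s := by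
  by_contra hc
  push Not at hc
  obtain ⟨s, hs'⟩ := h
  have h2 : ∑ s, D s < 0 := by
    refine Finset.sum_neg' (fun i _ => by have := hc i; omega) ⟨s, Finset.mem_univ _, ?_⟩
    have := hc s
    omega
  omega

lemma ex_neg {D : Fin 8 → ℤ} (hs : ∑ s, D s = 0) (h : ∃ s, D s ≠ 0) : ∃ s, D s ≤ -1 := by
  obtain ⟨s, h2⟩ := ex_pos (D := fun s => - D s) (by rw [Finset.sum_neg_distrib, hs, neg_zero])
    (by obtain ⟨s, hs⟩ := h; exact ⟨s, neg_ne_zero.mpr hs⟩)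
  exact ⟨s, by omega⟩

/-- one of three disjoint sets of residues has at most two elements -/
lemma small3 (P Q R : Fin 8 → Prop) (hP : ∃ s, P s) (hQ : ∃ s, Q s) (hR : ∃ s, R s)
    (h1 : ∀ s, ¬ (P s ∧ Q s)) (h2 : ∀ s, ¬ (P s ∧ R s)) (h3 : ∀ s, ¬ (Q s ∧ R s)) :
    (∃ a b, P a ∧ P b ∧ ∀ s, P s → s = a ∨ s = b) ∨
    (∃ a b, Q a ∧ Q b ∧ ∀ s, Q s → s = a ∨ s = b) ∨
    ∃ a b, R a ∧ R b ∧ ∀ s, R s → s = a ∨ s = b := by
  classical
  have two : ∀ P : Fin 8 → Prop, (∃ s, P s) → (Finset.univ.filter P).card ≤ 2 →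
      ∃ a b, P a ∧ P b ∧ ∀ s, P s → s = a ∨ s = b := by
    intro P hP hc
    obtain ⟨a, ha⟩ := hP
    by_cases hb : ∃ b, P b ∧ b ≠ a
    · obtain ⟨b, hb, hba⟩ := hb
      refine ⟨a, b, ha, hb, fun s hs => ?_⟩
      by_contra hne
      push Not at hne
      have h4 : ({a, b, s} : Finset (Fin 8)) ⊆ Finset.univ.filter P := by
        intro z hz
        simp only [Finset.mem_insert, Finset.mem_singleton] at hz
        rcases hz with rfl | rfl | rfl <;> simp [*]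
      have h5 := Finset.card_le_card h4
      rw [Finset.card_eq_three.mpr ⟨a, b, s, Ne.symm hba, Ne.symm hne.1, Ne.symm hne.2, rfl⟩] at h5
      omega
    · push Not at hb
      exact ⟨a, a, ha, ha, fun s hs => Or.inl (hb s hs)⟩
  by_contra hcon
  push Not at hcon
  obtain ⟨c1, c2, c3⟩ := hcon
  have d1 : 3 ≤ (Finset.univ.filter P).card := by
    by_contra hc
    obtain ⟨a, b, ha, hb, h⟩ := two P hP (by omega)
    obtain ⟨s, hs, q1, q2⟩ := c1 a b ha hb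
    exact (h s hs).elim q1 q2
  have d2 : 3 ≤ (Finset.univ.filter Q).card := by
    by_contra hc
    obtain ⟨a, b, ha, hb, h⟩ := two Q hQ (by omega)
    obtain ⟨s, hs, q1, q2⟩ := c2 a b ha hb
    exact (h s hs).elim q1 q2
  have d3 : 3 ≤ (Finset.univ.filter R).card := by
    by_contra hc
    obtain ⟨a, b, ha, hb, h⟩ := two R hR (by omega)
    obtain ⟨s, hs, q1, q2⟩ := c3 a b ha hb
    exact (h s hs).elim q1 q2
  have e1 : Disjoint (Finset.univ.filter P) (Finset.univ.filter Q) := by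
    rw [Finset.disjoint_filter]; exact fun s _ hs hs' => h1 s ⟨hs, hs'⟩
  have e2 : Disjoint (Finset.univ.filter P ∪ Finset.univ.filter Q) (Finset.univ.filter R) := by
    rw [Finset.disjoint_union_left, Finset.disjoint_filter, Finset.disjoint_filter]
    exact ⟨fun s _ hs hs' => h2 s ⟨hs, hs'⟩, fun s _ hs hs' => h3 s ⟨hs, hs'⟩⟩
  have e3 := Finset.card_le_univ ((Finset.univ.filter P ∪ Finset.univ.filter Q) ∪
    Finset.univ.filter R)
  rw [Finset.card_union_of_disjoint e2, Finset.card_union_of_disjoint e1] at e3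
  simp only [Fintype.card_fin] at e3
  omega

end Pool.Agent.K8
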