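import Pool.Agent.Lib_helper72.K8.En

/-!
# A point of order eight: the divisors of the solutions, with finite data
-/

set_option autoImplicit false
set_option linter.unusedSectionVars false
set_option linter.unusedSimpArgs false
set_option linter.unusedVariables false

namespace Pool.Agent.K8

open KC72
open Pool.Agent.K7 (dot pos neg rot mkD)

/-- the data of a curve -/
structure Dat where
  /-- the coefficients of the logarithmic derivatives in terms of the divisor -/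
  kap : Fin 9 → Fin 8 → ℤ
  /-- the exponents of `2` -/
  nu2 : Fin 8 → ℤ
  /-- the exponents of `3` -/
  nu3 : Fin 8 → ℤ
  /-- the systems for one point -/
  sI : List Sys
  /-- the systems for two points -/
  sII : List (List (List Sys))
  /-- the table of solutions -/
  look : List ℤ → List ℤ → Bool

/-- `g'/g` vanishes to order `a - 1` at `-sP` -/
def VanAt (κ : Fin 9 → Fin 8 → ℤ) (D : Fin 8 → ℤ) (s : Fin 8) (a : ℤ) : Prop :=
  ∀ m : Fin 9, 9 - a < ordm m → ∑ c, κ m c * D (c + s) = 0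

/-- the conditions on the divisors of `f`, `1 - f` -/
structure Shp (C : Dat) (D D' : Fin 8 → ℤ) : Prop where
  alt : ∀ s, (D s = 0 ∧ D' s = 0) ∨ (1 ≤ D s ∧ D' s = 0) ∨ (D s = 0 ∧ 1 ≤ D' s) ∨
    (D s = D' s ∧ D s ≤ -1)
  s0 : ∑ s, D s = 0
  s1 : ∑ s, D' s = 0
  w0 : (∑ s : Fin 8, (s.val : ℤ) * D s) % 8 = 0
  w1 : (∑ s : Fin 8, (s.val : ℤ) * D' s) % 8 = 0
  van : ∀ s, 1 ≤ D s → (∃ M : Fin 9, ordm M = 9 - D s) ∧ VanAt C.kap D' s (D s)
  lv : ∀ s s', 1 ≤ D s → 1 ≤ D s' →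
    ∑ c, C.nu2 (c - s) * D' c = ∑ c, C.nu2 (c - s') * D' c ∧
    ∑ c, C.nu3 (c - s) * D' c = ∑ c, C.nu3 (c - s') * D' c
  ne : ∃ s, D' s ≠ 0

/-- the row of a linear form at `-sP` -/
def rowZ (κ : Fin 8 → ℤ) (s : Fin 8) : List ℤ := rot^[8 - s.val] (tl κ)

lemma rowZ_eq (κ : Fin 8 → ℤ) (s : Fin 8) : rowZ κ s = tl (fun c => κ (c - s)) := by
  unfold rowZ
  rw [rot_iter]
  congr 1
  funext i
  congr 1
  have : ∀ s : Fin 8, (8 - s.val) • (1 : Fin 8) = -s := by decide
  rw [this, sub_eq_add_neg]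

lemma dot_rowZ (κ : Fin 8 → ℤ) (s : Fin 8) (D : Fin 8 → ℤ) :
    dot (rowZ κ s) (tl D) = ∑ c, κ c * D (c + s) := by
  rw [rowZ_eq, dot_tl, ← Equiv.sum_comp (Equiv.addRight s) (fun c => κ (c - s) * D c)]
  refine Finset.sum_congr rfl fun c _ => ?_
  show κ (c + s - s) * D (c + s) = _
  rw [add_sub_cancel_right]

/-- all indices -/
def ix9 : List (Fin 9) := [0, 1, 2, 3, 4, 5, 6, 7, 8]

/-- the rows for a zero of order `a` at `-sP` -/
def vR (C : Dat) (a : ℕ) (s : Fin 8) : List (List ℤ) :=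
  (ix9.filter (fun m => decide (9 - (a : ℤ) < ordm m))).map (fun m => rowZ (C.kap m) s)

lemma vR_zero {C : Dat} {D' : Fin 8 → ℤ} {s : Fin 8} {a : ℕ} {a' : ℤ}
    (h : VanAt C.kap D' s a') (ha : (a : ℤ) ≤ a') : ∀ r ∈ vR C a s, dot r (tl D') = 0 := by
  intro r hr
  unfold vR at hr
  rw [List.mem_map] at hr
  obtain ⟨m, hm, rfl⟩ := hr
  rw [List.mem_filter, decide_eq_true_eq] at hm
  rw [dot_rowZ]
  exact h m (by omega)

/-- a unit vector -/
def e8 (d : Fin 8) : List ℤ := tl (fun c => if c = d then 1 else 0)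

lemma dot_e8 (d : Fin 8) (D : Fin 8 → ℤ) : dot (e8 d) (tl D) = D d := by
  unfold e8
  rw [dot_tl]
  simp

lemma dot_ones (D : Fin 8 → ℤ) : dot (tl fun _ => 1) (tl D) = ∑ c, D c := by
  rw [dot_tl]
  simp

/-- the rows for one point -/
def R1 (C : Dat) (n : ℕ) : List (List ℤ) := e8 0 :: (tl fun _ => 1) :: vR C n 0

/-- the difference of two lists -/
def subL : List ℤ → List ℤ → List ℤ
  | a :: l, b :: m => (a - b) :: subL l m
  | _, _ => []

lemma subL_tl (f g : Fin 8 → ℤ) : subL (tl f) (tl g) = tl (fun c => f c - g c) := rfl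

/-- the rows for two points -/
def R2 (C : Dat) (d : Fin 8) (a b : ℕ) : List (List ℤ) :=
  e8 0 :: e8 d :: (tl fun _ => 1) :: subL (rowZ C.nu2 0) (rowZ C.nu2 d) ::
    subL (rowZ C.nu3 0) (rowZ C.nu3 d) :: (vR C a 0 ++ vR C b d)

/-- look up all rotations -/
def lk (look : List ℤ → List ℤ → Bool) : ℕ → List ℤ → List ℤ → Bool
  | 0, _, _ => true
  | j + 1, D, D' => look D D' && lk look j (rot D) (rot D')

lemma lk_spec (look : List ℤ → List ℤ → Bool) (n : ℕ) : ∀ {D D' : List ℤ},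
    lk look n D D' = true → ∀ j < n, look (rot^[j] D) (rot^[j] D') = true := by
  induction n with
  | zero => intro D D' _ j hj; omega
  | succ n ih =>
    intro D D' h j hj
    unfold lk at h
    rw [Bool.and_eq_true] at h
    rcases j with _ | j
    · exact h.1
    · rw [Function.iterate_succ_apply, Function.iterate_succ_apply]
      exact ih h.2 j (by omega)

/-- the weight condition -/
def wtc (l : List ℤ) : Bool := dot [0, 1, 2, 3, 4, 5, 6, 7] l % 8 == 0

lemma wtc_of {D : Fin 8 → ℤ} (h : (∑ s : Fin 8, (s.val : ℤ) * D s) % 8 = 0) :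
    wtc (tl D) = true := by
  rw [← dot_tl (fun s : Fin 8 => (s.val : ℤ)) D] at h
  unfold wtc
  rw [beq_iff_eq]
  exact h

/-- the check of a leaf -/
def leaf (C : Dat) (S : Sys) (n : ℕ) (aL : List ℤ) (v : List ℤ) : Bool :=
  !(S.int v) || (!(pos (S.full v) == n) || (!(neg (S.full v) == n) || (!(wtc (S.full v)) ||
    (!(wtc (mkD aL (S.full v))) || lk C.look 8 (mkD aL (S.full v)) (S.full v)))))

/-- the free coordinates are coordinates -/
def frOK (S : Sys) : Bool := decide S.fr.Nodup && S.fr.all (fun f => decide (f < 8))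

/-- the check for one point -/
def ok1 (C : Dat) (n : ℕ) : Bool :=
  (C.sI.getD n ⟨[], 0, [], []⟩).ok (R1 C n) && (frOK (C.sI.getD n ⟨[], 0, [], []⟩) &&
    enF (leaf C (C.sI.getD n ⟨[], 0, [], []⟩) n [(n : ℤ), 0, 0, 0, 0, 0, 0, 0])
      (C.sI.getD n ⟨[], 0, [], []⟩).fr.length n n [])

/-- the system for two points -/
def S2 (C : Dat) (d a b : ℕ) : Sys := ((C.sII.getD d []).getD a []).getD b ⟨[], 0, [], []⟩

/-- the two points -/
def aL2 (d : Fin 8) (a b : ℤ) : List ℤ := tl (fun s => if s = 0 then a else if s = d then b else 0)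

/-- the check for two points -/
def ok2 (C : Dat) (d : Fin 8) (a b : ℕ) : Bool :=
  (S2 C d.val a b).ok (R2 C d a b) && (frOK (S2 C d.val a b) &&
    enF (leaf C (S2 C d.val a b) (a + b) (aL2 d a b)) (S2 C d.val a b).fr.length (a + b) (a + b) [])

/-- the check for two points in high degree -/
def ok0 (C : Dat) (d : Fin 8) (a b : ℕ) : Bool :=
  (S2 C d.val a b).ok (R2 C d a b) && ((S2 C d.val a b).fr == [] &&
    (S2 C d.val a b).full [] == [0, 0, 0, 0, 0, 0, 0, 0])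

lemma pos_reverse (l : List ℤ) : pos l.reverse = pos l := by
  unfold pos
  rw [List.map_reverse, List.sum_reverse]

lemma neg_reverse (l : List ℤ) : neg l.reverse = neg l := by
  unfold neg
  rw [List.map_reverse, List.sum_reverse]

lemma tl_length (D : Fin 8 → ℤ) : (tl D).length = 8 := rfl

/-- the leaf at the solution -/
lemma leaf_of {C : Dat} {S : Sys} {R : List (List ℤ)} {n : ℕ} {aL : List ℤ} {D D' : Fin 8 → ℤ}
    (hS : S.ok R = true) (hf : frOK S = true)
    (hE : enF (leaf C S n aL) S.fr.length n n [] = true)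
    (hR : ∀ r ∈ R, dot r (tl D') = 0) (hp : pos (tl D') = n) (hq : neg (tl D') = n)
    (w1 : wtc (tl D') = true) (w0 : wtc (tl D) = true) (hm : mkD aL (tl D') = tl D) :
    lk C.look 8 (tl D) (tl D') = true := by
  obtain ⟨h1, h2⟩ := S.full_eq hS (tl_length D') hR
  unfold frOK at hf
  rw [Bool.and_eq_true, decide_eq_true_eq, List.all_eq_true] at hf
  obtain ⟨p1, p2⟩ := pos_getD_le (tl D') S.fr hf.1 (fun f hf' => by
    have := hf.2 f hf'
    rw [decide_eq_true_eq] at this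
    exact this)
  have key := enF_spec _ _ _ _ _ hE (S.fr.map (fun f => (tl D').getD f 0)).reverse (by simp)
    (by rw [pos_reverse, ← hp]; exact p1) (by rw [neg_reverse, ← hq]; exact p2)
  rw [List.reverse_reverse, List.append_nil] at key
  unfold leaf at key
  rw [h1, h2, hp, hq, hm, w1, w0] at key
  simpa using key

/-- the positive and negative parts of the divisor of `1 - f` -/
lemma parts {C : Dat} {D D' : Fin 8 → ℤ} (H : Shp C D D') {n : ℕ}
    (hn : (n : ℤ) = ∑ s, (if 1 ≤ D s then D s else 0)) :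
    pos (tl D') = n ∧ neg (tl D') = n := by
  have key : ∀ s, ((D' s).toNat : ℤ) = D' s - D s + (if 1 ≤ D s then D s else 0) ∧
      ((-(D' s)).toNat : ℤ) = - D s + (if 1 ≤ D s then D s else 0) := by
    intro s
    rcases H.alt s with ⟨h1, h2⟩ | ⟨h1, h2⟩ | ⟨h1, h2⟩ | ⟨h1, h2⟩
    · rw [h1, h2]; simp
    · rw [if_pos h1, h2]; simp
    · rw [h1, if_neg (by norm_num)]; omega
    · rw [if_neg (by omega)]; omega
  have e0 := H.s0
  have e1 := H.s1
  rw [Fin.sum_univ_eight] at e0 e1 hn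
  have k0 := key 0
  have k1 := key 1
  have k2 := key 2
  have k3 := key 3
  have k4 := key 4
  have k5 := key 5
  have k6 := key 6
  have k7 := key 7
  have p1 : pos (tl D') = (D' 0).toNat + ((D' 1).toNat + ((D' 2).toNat +
      ((D' 3).toNat + ((D' 4).toNat + ((D' 5).toNat + ((D' 6).toNat + ((D' 7).toNat + 0))))))) := rfl
  have p2 : neg (tl D') = (-(D' 0)).toNat + ((-(D' 1)).toNat + ((-(D' 2)).toNat +
      ((-(D' 3)).toNat + ((-(D' 4)).toNat + ((-(D' 5)).toNat + ((-(D' 6)).toNat +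
      ((-(D' 7)).toNat + 0))))))) := rfl
  rw [p1, p2]
  constructor <;> zify <;> linarith [k0.1, k0.2, k1.1, k1.2, k2.1, k2.2, k3.1, k3.2, k4.1, k4.2,
    k5.1, k5.2, k6.1, k6.2, k7.1, k7.2]

lemma ordm_le : ∀ M : Fin 9, (0 : ℤ) ≤ ordm M ∧ ordm M ≠ 1 := by decide

theorem comb1 {C : Dat} {D D' : Fin 8 → ℤ} (H : Shp C D D') (h0 : 1 ≤ D 0)
    (hA : ∀ s, 1 ≤ D s → s = 0) (hC : ∀ n : ℕ, 1 ≤ n → n ≤ 9 → n ≠ 8 → ok1 C n = true) :
    lk C.look 8 (tl D) (tl D') = true := by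
  have z0 : D' 0 = 0 := by rcases H.alt 0 with h | h | h | h <;> omega
  obtain ⟨⟨M, hM⟩, hv⟩ := H.van 0 h0
  obtain ⟨n, hn⟩ : ∃ n : ℕ, D 0 = n := ⟨(D 0).toNat, by omega⟩
  rw [hn] at hM hv
  have hM' := ordm_le M
  have hf : ∀ s, (if 1 ≤ D s then D s else 0) = (if s = 0 then (n : ℤ) else 0) := by
    intro s
    by_cases hs : s = 0
    · rw [hs, if_pos rfl, if_pos h0, hn]
    · rw [if_neg (fun h => hs (hA s h)), if_neg hs]
  have hc := hC n (by omega) (by omega) (by omega)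
  unfold ok1 at hc
  rw [Bool.and_eq_true, Bool.and_eq_true] at hc
  obtain ⟨p1, p2⟩ := parts H (n := n) (by simp only [hf]; simp)
  refine leaf_of hc.1 hc.2.1 hc.2.2 ?_ p1 p2 (wtc_of H.w1) (wtc_of H.w0) ?_
  · intro r hr
    unfold R1 at hr
    rw [List.mem_cons, List.mem_cons] at hr
    rcases hr with rfl | rfl | hr
    · rw [dot_e8, z0]
    · rw [dot_ones, H.s1]
    · exact vR_zero hv le_rfl r hr
  · have hm := mkD_tl (fun s => if s = 0 then (n : ℤ) else 0) D D' (by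
      intro s
      rw [← hf]
      rcases H.alt s with ⟨h1, h2⟩ | ⟨h1, h2⟩ | ⟨h1, h2⟩ | ⟨h1, h2⟩
      · rw [if_neg (by omega), if_neg (by omega), h1]
      · rw [if_neg (by omega), if_pos h1]
      · rw [if_neg (by omega), if_neg (by omega), h1]
      · rw [if_pos (by omega), h1])
    exact hm

lemma R2_zero {C : Dat} {D D' : Fin 8 → ℤ} (H : Shp C D D') (d : Fin 8) (h0 : 1 ≤ D 0)
    (h1 : 1 ≤ D d) {a b : ℕ} (ha : (a : ℤ) ≤ D 0) (hb : (b : ℤ) ≤ D d) :
    ∀ r ∈ R2 C d a b, dot r (tl D') = 0 := by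
  have z0 : D' 0 = 0 := by rcases H.alt 0 with h | h | h | h <;> omega
  have z1 : D' d = 0 := by rcases H.alt d with h | h | h | h <;> omega
  obtain ⟨l2, l3⟩ := H.lv 0 d h0 h1
  intro r hr
  unfold R2 at hr
  simp only [List.mem_cons, List.mem_append] at hr
  rcases hr with rfl | rfl | rfl | rfl | rfl | hr | hr
  · rw [dot_e8, z0]
  · rw [dot_e8, z1]
  · rw [dot_ones, H.s1]
  · rw [rowZ_eq, rowZ_eq, subL_tl, dot_tl]
    simp only [sub_mul, Finset.sum_sub_distrib]
    rw [l2, sub_self]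
  · rw [rowZ_eq, rowZ_eq, subL_tl, dot_tl]
    simp only [sub_mul, Finset.sum_sub_distrib]
    rw [l3, sub_self]
  · exact vR_zero (H.van 0 h0).2 ha r hr
  · exact vR_zero (H.van d h1).2 hb r hr

theorem comb2 {C : Dat} {D D' : Fin 8 → ℤ} (H : Shp C D D') (d : Fin 8) (hd : d ≠ 0)
    (h0 : 1 ≤ D 0) (h1 : 1 ≤ D d) (hA : ∀ s, 1 ≤ D s → s = 0 ∨ s = d)
    (hC : ∀ a b : ℕ, 1 ≤ a → 1 ≤ b → a + b ≤ 6 → ok2 C d a b = true)
    (hC' : ∀ a b : ℕ, 1 ≤ a → 1 ≤ b → a + b = 7 → ok0 C d a b = true) :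
    lk C.look 8 (tl D) (tl D') = true := by
  obtain ⟨a, ha⟩ : ∃ n : ℕ, D 0 = n := ⟨(D 0).toNat, by omega⟩
  obtain ⟨b, hb⟩ : ∃ n : ℕ, D d = n := ⟨(D d).toNat, by omega⟩
  by_cases h6 : 7 ≤ a + b
  · exfalso
    obtain ⟨s, hs⟩ := H.ne
    apply hs
    have hc := hC' (min a 6) (7 - min a 6) (by omega) (by omega) (by omega)
    unfold ok0 at hc
    rw [Bool.and_eq_true, Bool.and_eq_true, beq_iff_eq, beq_iff_eq] at hc
    obtain ⟨k1, k2⟩ := Sys.full_eq hc.1 (tl_length D')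
      (R2_zero H d h0 h1 (by omega) (by omega))
    rw [hc.2.1, List.map_nil, hc.2.2] at k1
    exact (tl_inj (D := fun _ => 0) (D' := D') k1 s).symm
  have hf : ∀ s, (if 1 ≤ D s then D s else 0) =
      (if s = 0 then (a : ℤ) else 0) + (if s = d then (b : ℤ) else 0) := by
    intro s
    by_cases hs : s = 0
    · rw [hs, if_pos rfl, if_neg (Ne.symm hd), if_pos (by omega), ha, add_zero]
    · by_cases hs' : s = d
      · rw [hs', if_neg hd, if_pos rfl, if_pos (by omega), hb, zero_add]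
      · rw [if_neg (fun h => (hA s h).elim hs hs'), if_neg hs, if_neg hs', add_zero]
  have hc := hC a b (by omega) (by omega) (by omega)
  unfold ok2 at hc
  rw [Bool.and_eq_true, Bool.and_eq_true] at hc
  obtain ⟨p1, p2⟩ := parts H (n := a + b) (by
    simp only [hf, Finset.sum_add_distrib]; simp)
  refine leaf_of hc.1 hc.2.1 hc.2.2 (R2_zero H d h0 h1 (by omega) (by omega)) p1 p2
    (wtc_of H.w1) (wtc_of H.w0) ?_
  refine mkD_tl (fun s => if s = 0 then (a : ℤ) else if s = d then (b : ℤ) else 0) D D' ?_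
  intro s
  have hf' : (if s = 0 then (a : ℤ) else if s = d then (b : ℤ) else 0) =
      (if s = 0 then (a : ℤ) else 0) + (if s = d then (b : ℤ) else 0) := by
    by_cases hs : s = 0
    · rw [hs, if_pos rfl, if_pos rfl, if_neg (Ne.symm hd), add_zero]
    · rw [if_neg hs, if_neg hs, zero_add]
  show (if D' s < 0 then D' s else
    if s = 0 then (a : ℤ) else if s = d then (b : ℤ) else 0) = D s
  rw [hf', ← hf]
  rcases H.alt s with ⟨h1, h2⟩ | ⟨h1, h2⟩ | ⟨h1, h2⟩ | ⟨h1, h2⟩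
  · rw [if_neg (by omega), if_neg (by omega), h1]
  · rw [if_neg (by omega), if_pos h1]
  · rw [if_neg (by omega), if_neg (by omega), h1]
  · rw [if_pos (by omega), h1]

/-! ### the linear forms -/

lemma nz_key {κ : Fin 8 → ℤ} {al : Fin 8 → ℤ} {A : ℤ}
    (hk : ∀ i, κ (i - 1) + κ (i + 1) - 2 * κ i = 16 * al i - 2 * A) (e : Fin 8 → ℤ) :
    16 * ∑ i, al i * e i = ∑ c, κ c * OO e c + 2 * A * ∑ i, e i := by
  rw [sum_OO_mul]
  simp only [hk]
  rw [Finset.mul_sum, Finset.mul_sum, ← Finset.sum_add_distrib]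
  exact Finset.sum_congr rfl fun i _ => by ring

lemma nz_at {κ : Fin 8 → ℤ} {al : Fin 8 → ℤ} {A : ℤ}
    (hk : ∀ i, κ (i - 1) + κ (i + 1) - 2 * κ i = 16 * al i - 2 * A) (e : Fin 8 → ℤ) (s : Fin 8) :
    16 * ∑ i, al i * e (i + s) = ∑ c, κ (c - s) * OO e c + 2 * A * ∑ i, e i := by
  have h := nz_key hk (fun i => e (i + s))
  rw [h]
  congr 1
  · rw [← Equiv.sum_comp (Equiv.addRight s) (fun c => κ (c - s) * OO e c)]
    refine Finset.sum_congr rfl fun c _ => ?_
    show κ c * OO (fun i => e (i + s)) c = κ (c + s - s) * OO e (c + s)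
    rw [add_sub_cancel_right, OO_shift]
  · congr 1
    exact Equiv.sum_comp (Equiv.addRight s) e

lemma kz_key {κ : Fin 9 → Fin 8 → ℤ} {rz : Fin 7 → Fin 9 → ℤ}
    (hk : ∀ m i, 8 * ∑ j, ex i j * rz j m = κ m (i - 1) + κ m (i + 1) - 2 * κ m i)
    (m : Fin 9) (e : Fin 8 → ℤ) : 8 * ∑ j, NN e j * rz j m = ∑ c, κ m c * OO e c := by
  rw [sum_OO_mul]
  simp only [← hk]
  unfold NN
  rw [Finset.mul_sum]
  rw [show (∑ j, 8 * ((∑ i, e i * ex i j) * rz j m)) =
    ∑ j, ∑ i, e i * (8 * (ex i j * rz j m)) from Finset.sum_congr rfl fun j _ => by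
      rw [Finset.sum_mul, Finset.mul_sum]
      exact Finset.sum_congr rfl fun i _ => by ring, Finset.sum_comm]
  refine Finset.sum_congr rfl fun i _ => ?_
  rw [Finset.mul_sum, Finset.mul_sum]

/-! ### values -/

section

variable {k : Type*} [Field k]

lemma two_three [CharZero k] {a b : ℤ} (h : (2 : k) ^ a * 3 ^ b = 1) : a = 0 ∧ b = 0 := by
  have hq : (2 : ℚ) ^ a * 3 ^ b = 1 := by
    have h2 : ((((2 : ℚ) ^ a * 3 ^ b : ℚ)) : k) = ((1 : ℚ) : k) := by
      push_cast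
      exact h
    exact_mod_cast h2
  have v2 := congrArg (padicValRat 2) hq
  have v3 := congrArg (padicValRat 3) hq
  haveI : Fact (Nat.Prime 2) := ⟨Nat.prime_two⟩
  haveI : Fact (Nat.Prime 3) := ⟨Nat.prime_three⟩
  have a2 : (2 : ℚ) ^ a ≠ 0 := zpow_ne_zero _ two_ne_zero
  have a3 : (3 : ℚ) ^ b ≠ 0 := zpow_ne_zero _ three_ne_zero
  have c1 : padicValRat 2 (2 : ℚ) = 1 := by
    have := padicValRat.self (p := 2) (by norm_num)
    exact_mod_cast this
  have c2 : padicValRat 3 (3 : ℚ) = 1 := by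
    have := padicValRat.self (p := 3) (by norm_num)
    exact_mod_cast this
  have c3 : padicValRat 2 (3 : ℚ) = 0 := by
    have : padicValRat 2 ((3 : ℕ) : ℚ) = 0 := by
      rw [padicValRat.of_nat, padicValNat.eq_zero_of_not_dvd (by norm_num)]; rfl
    exact_mod_cast this
  have c4 : padicValRat 3 (2 : ℚ) = 0 := by
    have : padicValRat 3 ((2 : ℕ) : ℚ) = 0 := by
      rw [padicValRat.of_nat, padicValNat.eq_zero_of_not_dvd (by norm_num)]; rfl
    exact_mod_cast this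
  rw [padicValRat.mul a2 a3, padicValRat.zpow, padicValRat.zpow, c1, c3,
    padicValRat.one] at v2
  rw [padicValRat.mul a2 a3, padicValRat.zpow, padicValRat.zpow, c4, c2,
    padicValRat.one] at v3
  constructor <;> linarith

/-- a product of signed powers of `2`, `3` -/
lemma prod_sq [CharZero k] (sg : Fin 8 → Bool) (al be e : Fin 8 → ℤ) :
    (∏ i, ((bif sg i then -1 else 1) * 2 ^ al i * 3 ^ be i : k) ^ e i) ^ 2 =
      2 ^ (2 * ∑ i, al i * e i) * 3 ^ (2 * ∑ i, be i * e i) := by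
  have h : ∀ s : Finset (Fin 8),
      (∏ i ∈ s, ((bif sg i then -1 else 1) * 2 ^ al i * 3 ^ be i : k) ^ e i) ^ 2 =
      2 ^ (2 * ∑ i ∈ s, al i * e i) * 3 ^ (2 * ∑ i ∈ s, be i * e i) := by
    intro s
    classical
    induction s using Finset.induction_on with
    | empty => simp
    | insert i s hi ih =>
      rw [Finset.prod_insert hi, Finset.sum_insert hi, Finset.sum_insert hi, mul_pow, ih, mul_add,
        mul_add, zpow_add₀ two_ne_zero, zpow_add₀ three_ne_zero]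
      have h1 : (((bif sg i then -1 else 1) * 2 ^ al i * 3 ^ be i : k) ^ e i) ^ 2 =
          2 ^ (2 * (al i * e i)) * 3 ^ (2 * (be i * e i)) := by
        have s1 : ((bif sg i then -1 else 1 : k) ^ e i) ^ 2 = 1 := by
          rw [← zpow_natCast, ← zpow_mul, mul_comm, zpow_mul, zpow_natCast]
          cases sg i <;> simp
        rw [mul_zpow, mul_zpow, mul_pow, mul_pow, s1, one_mul, ← zpow_mul, ← zpow_mul,
          ← zpow_natCast, ← zpow_natCast, ← zpow_mul, ← zpow_mul, mul_comm _ ((2 : ℕ) : ℤ),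
          mul_comm _ ((2 : ℕ) : ℤ)]
        norm_num
      rw [h1]
      ring
  exact h _

/-- equal values give equal exponents -/
lemma exp_eq [CharZero k] (sg : Fin 8 → Bool) (al be : Fin 8 → ℤ) {c : k} (hc : c ≠ 0)
    {e : Fin 8 → ℤ} {s s' : Fin 8}
    (h : c * ∏ i, ((bif sg i then -1 else 1) * 2 ^ al i * 3 ^ be i : k) ^ e (i + s) = 1)
    (h' : c * ∏ i, ((bif sg i then -1 else 1) * 2 ^ al i * 3 ^ be i : k) ^ e (i + s') = 1) :
    ∑ i, al i * e (i + s) = ∑ i, al i * e (i + s') ∧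
    ∑ i, be i * e (i + s) = ∑ i, be i * e (i + s') := by
  have h2 := mul_left_cancel₀ hc (h.trans h'.symm)
  have h3 := congrArg (fun z => z ^ 2) h2
  beta_reduce at h3
  rw [prod_sq sg al be (fun i => e (i + s)), prod_sq sg al be (fun i => e (i + s'))] at h3
  have n2 : ∀ a : ℤ, (2 : k) ^ a ≠ 0 := fun a => zpow_ne_zero _ two_ne_zero
  have n3 : ∀ a : ℤ, (3 : k) ^ a ≠ 0 := fun a => zpow_ne_zero _ three_ne_zero
  have h4 : (2 : k) ^ (2 * ∑ i, al i * e (i + s) - 2 * ∑ i, al i * e (i + s')) *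
      3 ^ (2 * ∑ i, be i * e (i + s) - 2 * ∑ i, be i * e (i + s')) = 1 := by
    rw [zpow_sub₀ two_ne_zero, zpow_sub₀ three_ne_zero, div_mul_div_comm, h3,
      div_self (mul_ne_zero (n2 _) (n3 _))]
  obtain ⟨a1, a2⟩ := two_three h4
  constructor <;> omega

end

lemma small8 : ∀ a b : Fin 8, ∃ d : Fin 5, b = a + ⟨d.val, by omega⟩ ∨ a = b + ⟨d.val, by omega⟩ := by
  decide

lemma val_smul : ∀ s : Fin 8, s.val • (1 : Fin 8) = s := by decide

end Pool.Agent.K8
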